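import Pool.Agent.P8H58.DL.StmB
import Pool.Agent.N85.WM.Val

/-! # Project DL, packages SUMB, SUMC: from blocks to class functions -/

set_option autoImplicit false

open scoped Classical

noncomputable section

namespace Pool.Agent.P8H88.DL

open Pool.Agent.Y63.NV Pool.Agent.N85.WM Pool.Agent.P8H58.DL

theorem sumb : S_SUMB := by
  intro p _ F _ _ _ red G _ _ m h z c hz w hw
  rw [wsum_top red hz c] at hw
  have hw' : Nat.card {y : YS p G // cvS red y z = c} = w := by
    have hG : (Nat.card G : ℤ) ≠ 0 := by exact_mod_cast Nat.card_pos.ne'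
    exact_mod_cast mul_left_cancel₀ hG hw
  rw [lnum_top hz c, ← hw']
  refine cnt_mod (fun φ : {φ : G → F // IsIrrTrace φ} => blkOf φ) (fun y : YS p G => cvS red y) blkOf_block
    (cvS_block red) m ?_ hz c
  intro B hB
  rw [← numIrrBlock_eq, ← numWts_eq]
  exact h B hB

theorem sumc : S_SUMC := by
  intro p _ F _ _ _ red G _ _ B hB
  obtain ⟨e, he, h1, h2⟩ := exists_idem hB
  have key : ∀ B' : (G → F) → F, IsBlock B' → (B' e = 1 ↔ BEq B' B) := by
    intro B' hB'
    constructor
    · intro h
      exact (h2 B' hB' h).symm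
    · intro h
      rw [h e he.cl, h1]
  refine ⟨e, he, ?_, ?_⟩
  · rw [lnum_top he.cl, numIrrBlock_eq]
    exact Nat.card_congr (Equiv.subtypeEquivRight fun φ => key _ (blkOf_block φ))
  · rw [wsum_top red he.cl, numWts_eq]
    congr 2
    exact Nat.card_congr (Equiv.subtypeEquivRight fun y => key _ (cvS_block red y))

end Pool.Agent.P8H88.DL
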